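import Pool.Agent.H30.D2d

set_option autoImplicit false

namespace Pool.Agent.Results.MP_ad67b9_gt.Square

open Set Filter Topology TopologicalSpace

/-- Every open cover has a point-finite open refinement. -/
def Metacompact (Y : Type) [TopologicalSpace Y] : Prop :=
  ∀ 𝒰 : Set (Set Y), (∀ U ∈ 𝒰, IsOpen U) → ⋃₀ 𝒰 = univ →
    ∃ 𝒱 : Set (Set Y), (∀ V ∈ 𝒱, IsOpen V ∧ ∃ U ∈ 𝒰, V ⊆ U) ∧ ⋃₀ 𝒱 = univ ∧
      ∀ y, {V | V ∈ 𝒱 ∧ y ∈ V}.Finite

/-- Every open cover has a closed refinement that is a countable union of discrete families. -/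
def Subparacompact (Y : Type) [TopologicalSpace Y] : Prop :=
  ∀ 𝒰 : Set (Set Y), (∀ U ∈ 𝒰, IsOpen U) → ⋃₀ 𝒰 = univ →
    ∃ ℱ : ℕ → Set (Set Y), (∀ n, ∀ F ∈ ℱ n, IsClosed F ∧ ∃ U ∈ 𝒰, F ⊆ U) ∧
      ⋃ n, ⋃₀ ℱ n = univ ∧
      ∀ n y, ∃ V ∈ 𝓝 y, {F | F ∈ ℱ n ∧ (F ∩ V).Nonempty}.Subsingleton

open Pool.Agent.H30.D2 in
theorem result : ∃ (X : Type) (_ : TopologicalSpace X), T35Space X ∧
    IsTopologicalBasis {U : Set X | IsClopen U} ∧
    LindelofSpace {f : X → Bool // Continuous f} ∧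
    ¬ LindelofSpace ({f : X → Bool // Continuous f} × {f : X → Bool // Continuous f}) ∧
    ¬ Metacompact ({f : X → Bool // Continuous f} × {f : X → Bool // Continuous f}) ∧
    ¬ Subparacompact ({f : X → Bool // Continuous f} × {f : X → Bool // Continuous f}) := by
  have o : ∀ U ∈ range fun t => (p '' {t}ᶜ)ᶜ, IsOpen U := forall_mem_range.2 fun t =>
    (p_closed _).isOpen_compl
  have c : ⋃₀ (range fun t => (p '' {t}ᶜ)ᶜ) = univ := eq_univ_of_forall fun z =>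
    (cover z).elim fun t h => ⟨_, ⟨t, rfl⟩, h⟩
  refine ⟨X, inferInstance, inferInstance, basis, isLindelof_iff_lindelofSpace.1 lind,
    fun h => not_normal inferInstance, fun h => ?_, fun h => ?_⟩
  · obtain ⟨𝒱, h1, h2, h3⟩ := h _ o c
    choose V v1 v2 using fun r => mem_sUnion.1 (h2 ▸ mem_univ (p r))
    obtain ⟨z, r, r1, -, r2⟩ := star' (fun _ => V) fun _ r => (h1 _ (v1 r)).1.mem_nhds (v2 r)
    refine infinite_of_injective_forall_mem (f := fun k => V (r k)) (fun k l e => r1.injective ?_)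
      (fun k => And.intro (v1 _) (r2 k)) (h3 z)
    obtain ⟨_, ⟨t, rfl⟩, h⟩ := (h1 _ (v1 (r k))).2
    have e : V (r k) = V (r l) := e
    simp only [cover' (h (v2 _)), cover' (h (e ▸ v2 (r l)))]
  · obtain ⟨ℱ, h1, h2, h3⟩ := h _ o c
    have : ∀ n y, ∀ᶠ z in 𝓝 y, ∀ F ∈ ℱ n, z ∈ F → y ∈ F := fun n y => by
      obtain ⟨V, v1, v2⟩ := h3 n y
      by_cases a : ∃ F ∈ ℱ n, (F ∩ V).Nonempty ∧ y ∉ F
      · obtain ⟨F, a1, a2, a3⟩ := a
        refine mem_of_superset (inter_mem v1 ((h1 n F a1).1.isOpen_compl.mem_nhds a3))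
          fun z b G g1 g2 => (b.2 ?_).elim
        exact v2 ⟨g1, z, g2, b.1⟩ ⟨a1, a2⟩ ▸ g2
      · exact mem_of_superset v1 fun z b G g1 g2 => by_contra fun k => a ⟨G, g1, ⟨z, g2, b⟩, k⟩
    obtain ⟨z, r, r1, -, r2⟩ := star' (fun k r => {z | ∀ n ∈ Finset.range (k + 1), ∀ F ∈ ℱ n,
      z ∈ F → p r ∈ F}) fun _ r => (eventually_all_finset _).2 fun n _ => this n _
    obtain ⟨n, F, f1, f2⟩ := mem_iUnion.1 (h2 ▸ mem_univ z)
    obtain ⟨_, ⟨t, rfl⟩, h⟩ := (h1 n F f1).2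
    have a := cover' (h (r2 n n (by simp) F f1 f2))
    have b := cover' (h (r2 (n + 1) n (by simp) F f1 f2))
    simpa [a, b] using r1 n.lt_succ_self

end Pool.Agent.Results.MP_ad67b9_gt.Square
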